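import Pool.Agent.W842.BV.Stms2

/-!
# VCB: the sharp VC bound for the construction from its parts (project BV of helper842)
-/

set_option autoImplicit false

namespace Pool.Agent.W460.BVVCB

open Finset Pool.Agent.W842.BV

theorem t_VCB : Pool.Agent.W842.BV.S_VCB := by
  intro hDBL hNBR hVLA hVLB h1 h2 h3 h12 h13 h23 D N r R _ hD hr hN S hS
  classical
  set S₁ : Finset (Fin D → ZMod N) := univ.filter (fun u => (Sum.inl (Sum.inl u) : Vt D N) ∈ S)
    with hS₁
  set S₂ : Finset (Fin D → ZMod N) := univ.filter (fun u => (Sum.inl (Sum.inr u) : Vt D N) ∈ S)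
    with hS₂
  set S₃ : Finset (Fin D → ZMod (2 * N)) := univ.filter (fun u => (Sum.inr u : Vt D N) ∈ S)
    with hS₃
  have hnb := hNBR hDBL D N r
  have hi1 : Function.Injective (fun u : Fin D → ZMod N => (Sum.inl (Sum.inl u) : Vt D N)) :=
    Sum.inl_injective.comp Sum.inl_injective
  have hi2 : Function.Injective (fun u : Fin D → ZMod N => (Sum.inl (Sum.inr u) : Vt D N)) :=
    Sum.inl_injective.comp Sum.inr_injective
  have hi3 : Function.Injective (fun u : Fin D → ZMod (2 * N) => (Sum.inr u : Vt D N)) :=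
    Sum.inr_injective
  -- a general trace statement
  have key : ∀ T ⊆ S, T.Nonempty → ∃ v : Vt D N, ∀ x ∈ S, (x ∈ T ↔ Adj r v x) := by
    intro T hT hne
    obtain ⟨v, hv⟩ := hS T hT hne
    refine ⟨v, fun x hx => ?_⟩
    rw [← hnb v x, ← hv, mem_inter]
    exact ⟨fun h => h.1, fun h => ⟨h, hx⟩⟩
  have c1 : S₁.card ≤ D + 1 := by
    refine h1 hDBL hVLA D N r R hr hN S₁ ?_
    intro T hT hne
    obtain ⟨v, hv⟩ := key (T.image (fun u => (Sum.inl (Sum.inl u) : Vt D N)))
      (by
        intro x hx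
        obtain ⟨u, hu, rfl⟩ := mem_image.mp hx
        exact (mem_filter.mp (hT hu)).2) (hne.image _)
    have hv' : ∀ u ∈ S₁, (u ∈ T ↔ Adj r v (Sum.inl (Sum.inl u))) := by
      intro u hu
      rw [← hv _ (mem_filter.mp hu).2]
      exact ⟨fun h => mem_image_of_mem _ h, fun h => (hi1.mem_finset_image).mp h⟩
    obtain ⟨t, ht⟩ := hne
    rcases v with (v | v) | v
    · exact absurd ((hv' t (hT ht)).mp ht) (by simp [Adj])
    · exact Or.inl ⟨v, fun u hu => hv' u hu⟩
    · exact Or.inr ⟨v, fun u hu => hv' u hu⟩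
  have c2 : S₂.card ≤ D + 1 := by
    refine h2 hDBL hVLA D N r R hr hN S₂ ?_
    intro T hT hne
    obtain ⟨v, hv⟩ := key (T.image (fun u => (Sum.inl (Sum.inr u) : Vt D N)))
      (by
        intro x hx
        obtain ⟨u, hu, rfl⟩ := mem_image.mp hx
        exact (mem_filter.mp (hT hu)).2) (hne.image _)
    have hv' : ∀ u ∈ S₂, (u ∈ T ↔ Adj r v (Sum.inl (Sum.inr u))) := by
      intro u hu
      rw [← hv _ (mem_filter.mp hu).2]
      exact ⟨fun h => mem_image_of_mem _ h, fun h => (hi2.mem_finset_image).mp h⟩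
    obtain ⟨t, ht⟩ := hne
    rcases v with (v | v) | v
    · exact Or.inl ⟨v, fun u hu => hv' u hu⟩
    · exact absurd ((hv' t (hT ht)).mp ht) (by simp [Adj])
    · exact Or.inr ⟨v, fun u hu => hv' u hu⟩
  have c3 : S₃.card ≤ D + 1 := by
    refine h3 hDBL hVLA D N r R hr hN S₃ ?_
    intro T hT hne
    obtain ⟨v, hv⟩ := key (T.image (fun u => (Sum.inr u : Vt D N)))
      (by
        intro x hx
        obtain ⟨u, hu, rfl⟩ := mem_image.mp hx
        exact (mem_filter.mp (hT hu)).2) (hne.image _)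
    have hv' : ∀ u ∈ S₃, (u ∈ T ↔ Adj r v (Sum.inr u)) := by
      intro u hu
      rw [← hv _ (mem_filter.mp hu).2]
      exact ⟨fun h => mem_image_of_mem _ h, fun h => (hi3.mem_finset_image).mp h⟩
    obtain ⟨t, ht⟩ := hne
    rcases v with (v | v) | v
    · exact Or.inl ⟨v, fun u hu => hv' u hu⟩
    · exact Or.inr ⟨v, fun u hu => hv' u hu⟩
    · exact absurd ((hv' t (hT ht)).mp ht) (by simp [Adj])
  have j12 : ∀ (u w : Fin D → ZMod N), (Sum.inl (Sum.inl u) : Vt D N) ≠ Sum.inl (Sum.inr w) := by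
    intro u w h
    cases h
  have j13 : ∀ (u : Fin D → ZMod N) (y : Fin D → ZMod (2 * N)),
      (Sum.inl (Sum.inl u) : Vt D N) ≠ Sum.inr y := by
    intro u w h
    cases h
  have j23 : ∀ (u : Fin D → ZMod N) (y : Fin D → ZMod (2 * N)),
      (Sum.inl (Sum.inr u) : Vt D N) ≠ Sum.inr y := by
    intro u w h
    cases h
  have p12 : S₁.Nonempty → S₂.Nonempty → S₁.card + S₂.card ≤ D + 1 := by
    intro n1 n2
    refine h12 hVLB D N r R hD hr hN S₁ S₂ n1 n2 ?_
    intro T₁ hT₁ T₂ hT₂ m1 m2
    obtain ⟨v, hv⟩ := key (T₁.image (fun u => (Sum.inl (Sum.inl u) : Vt D N)) ∪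
      T₂.image (fun u => (Sum.inl (Sum.inr u) : Vt D N)))
      (by
        intro x hx
        rcases mem_union.mp hx with hx | hx
        · obtain ⟨u, hu, rfl⟩ := mem_image.mp hx
          exact (mem_filter.mp (hT₁ hu)).2
        · obtain ⟨u, hu, rfl⟩ := mem_image.mp hx
          exact (mem_filter.mp (hT₂ hu)).2) (Nonempty.inl (m1.image _))
    have hv1 : ∀ u ∈ S₁, (u ∈ T₁ ↔ Adj r v (Sum.inl (Sum.inl u))) := by
      intro u hu
      rw [← hv _ (mem_filter.mp hu).2, mem_union]
      constructor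
      · intro h
        exact Or.inl (mem_image_of_mem _ h)
      · rintro (h | h)
        · exact (hi1.mem_finset_image).mp h
        · obtain ⟨w, -, hw⟩ := mem_image.mp h
          exact absurd hw.symm (j12 _ _)
    have hv2 : ∀ w ∈ S₂, (w ∈ T₂ ↔ Adj r v (Sum.inl (Sum.inr w))) := by
      intro u hu
      rw [← hv _ (mem_filter.mp hu).2, mem_union]
      constructor
      · intro h
        exact Or.inr (mem_image_of_mem _ h)
      · rintro (h | h)
        · obtain ⟨w, -, hw⟩ := mem_image.mp h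
          exact absurd hw (j12 _ _)
        · exact (hi2.mem_finset_image).mp h
    obtain ⟨t1, ht1⟩ := m1
    obtain ⟨t2, ht2⟩ := m2
    rcases v with (v | v) | v
    · exact absurd ((hv1 t1 (hT₁ ht1)).mp ht1) (by simp [Adj])
    · exact absurd ((hv2 t2 (hT₂ ht2)).mp ht2) (by simp [Adj])
    · exact ⟨v, fun u hu => hv1 u hu, fun w hw => hv2 w hw⟩
  have p13 : S₁.Nonempty → S₃.Nonempty → S₁.card + S₃.card ≤ D + 1 := by
    intro n1 n3
    refine h13 hDBL hVLB D N r R hD hr hN S₁ S₃ n1 n3 ?_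
    intro T₁ hT₁ T₃ hT₃ m1 m3
    obtain ⟨v, hv⟩ := key (T₁.image (fun u => (Sum.inl (Sum.inl u) : Vt D N)) ∪
      T₃.image (fun u => (Sum.inr u : Vt D N)))
      (by
        intro x hx
        rcases mem_union.mp hx with hx | hx
        · obtain ⟨u, hu, rfl⟩ := mem_image.mp hx
          exact (mem_filter.mp (hT₁ hu)).2
        · obtain ⟨u, hu, rfl⟩ := mem_image.mp hx
          exact (mem_filter.mp (hT₃ hu)).2) (Nonempty.inl (m1.image _))
    have hv1 : ∀ u ∈ S₁, (u ∈ T₁ ↔ Adj r v (Sum.inl (Sum.inl u))) := by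
      intro u hu
      rw [← hv _ (mem_filter.mp hu).2, mem_union]
      constructor
      · intro h
        exact Or.inl (mem_image_of_mem _ h)
      · rintro (h | h)
        · exact (hi1.mem_finset_image).mp h
        · obtain ⟨w, -, hw⟩ := mem_image.mp h
          exact absurd hw.symm (j13 _ _)
    have hv3 : ∀ w ∈ S₃, (w ∈ T₃ ↔ Adj r v (Sum.inr w)) := by
      intro u hu
      rw [← hv _ (mem_filter.mp hu).2, mem_union]
      constructor
      · intro h
        exact Or.inr (mem_image_of_mem _ h)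
      · rintro (h | h)
        · obtain ⟨w, -, hw⟩ := mem_image.mp h
          exact absurd hw (j13 _ _)
        · exact (hi3.mem_finset_image).mp h
    obtain ⟨t1, ht1⟩ := m1
    obtain ⟨t3, ht3⟩ := m3
    rcases v with (v | v) | v
    · exact absurd ((hv1 t1 (hT₁ ht1)).mp ht1) (by simp [Adj])
    · exact ⟨v, fun u hu => hv1 u hu, fun w hw => hv3 w hw⟩
    · exact absurd ((hv3 t3 (hT₃ ht3)).mp ht3) (by simp [Adj])
  have p23 : S₂.Nonempty → S₃.Nonempty → S₂.card + S₃.card ≤ D + 1 := by
    intro n2 n3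
    refine h23 hDBL hVLB D N r R hD hr hN S₂ S₃ n2 n3 ?_
    intro T₂ hT₂ T₃ hT₃ m2 m3
    obtain ⟨v, hv⟩ := key (T₂.image (fun u => (Sum.inl (Sum.inr u) : Vt D N)) ∪
      T₃.image (fun u => (Sum.inr u : Vt D N)))
      (by
        intro x hx
        rcases mem_union.mp hx with hx | hx
        · obtain ⟨u, hu, rfl⟩ := mem_image.mp hx
          exact (mem_filter.mp (hT₂ hu)).2
        · obtain ⟨u, hu, rfl⟩ := mem_image.mp hx
          exact (mem_filter.mp (hT₃ hu)).2) (Nonempty.inl (m2.image _))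
    have hv2 : ∀ u ∈ S₂, (u ∈ T₂ ↔ Adj r v (Sum.inl (Sum.inr u))) := by
      intro u hu
      rw [← hv _ (mem_filter.mp hu).2, mem_union]
      constructor
      · intro h
        exact Or.inl (mem_image_of_mem _ h)
      · rintro (h | h)
        · exact (hi2.mem_finset_image).mp h
        · obtain ⟨w, -, hw⟩ := mem_image.mp h
          exact absurd hw.symm (j23 _ _)
    have hv3 : ∀ w ∈ S₃, (w ∈ T₃ ↔ Adj r v (Sum.inr w)) := by
      intro u hu
      rw [← hv _ (mem_filter.mp hu).2, mem_union]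
      constructor
      · intro h
        exact Or.inr (mem_image_of_mem _ h)
      · rintro (h | h)
        · obtain ⟨w, -, hw⟩ := mem_image.mp h
          exact absurd hw (j23 _ _)
        · exact (hi3.mem_finset_image).mp h
    obtain ⟨t2, ht2⟩ := m2
    obtain ⟨t3, ht3⟩ := m3
    rcases v with (v | v) | v
    · exact ⟨v, fun u hu => hv2 u hu, fun w hw => hv3 w hw⟩
    · exact absurd ((hv2 t2 (hT₂ ht2)).mp ht2) (by simp [Adj])
    · exact absurd ((hv3 t3 (hT₃ ht3)).mp ht3) (by simp [Adj])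
  have hone : S₁.card = 0 ∨ S₂.card = 0 ∨ S₃.card = 0 := by
    rcases S.eq_empty_or_nonempty with he | hne
    · left
      rw [card_eq_zero, filter_eq_empty_iff]
      intro u _
      rw [he]
      simp
    · obtain ⟨v, hv⟩ := key S (Subset.refl S) hne
      rcases v with (v | v) | v
      · left
        rw [card_eq_zero, filter_eq_empty_iff]
        intro u _ hu
        exact absurd ((hv _ hu).mp hu) (by simp [Adj])
      · right
        left
        rw [card_eq_zero, filter_eq_empty_iff]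
        intro u _ hu
        exact absurd ((hv _ hu).mp hu) (by simp [Adj])
      · right
        right
        rw [card_eq_zero, filter_eq_empty_iff]
        intro u _ hu
        exact absurd ((hv _ hu).mp hu) (by simp [Adj])
  rw [← card_pos, ← card_pos] at p12 p13 p23
  have hcov : S ⊆ (S₁.image (fun u => (Sum.inl (Sum.inl u) : Vt D N)) ∪
      S₂.image (fun u => (Sum.inl (Sum.inr u) : Vt D N))) ∪
      S₃.image (fun u => (Sum.inr u : Vt D N)) := by
    intro x hx
    rw [mem_union, mem_union]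
    rcases x with (x | x) | x
    · exact Or.inl (Or.inl (mem_image.mpr ⟨x, mem_filter.mpr ⟨mem_univ _, hx⟩, rfl⟩))
    · exact Or.inl (Or.inr (mem_image.mpr ⟨x, mem_filter.mpr ⟨mem_univ _, hx⟩, rfl⟩))
    · exact Or.inr (mem_image.mpr ⟨x, mem_filter.mpr ⟨mem_univ _, hx⟩, rfl⟩)
  have d1 := card_le_card hcov
  have d2 := card_union_le (S₁.image (fun u => (Sum.inl (Sum.inl u) : Vt D N)) ∪
      S₂.image (fun u => (Sum.inl (Sum.inr u) : Vt D N)))
      (S₃.image (fun u => (Sum.inr u : Vt D N)))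
  have d3 := card_union_le (S₁.image (fun u => (Sum.inl (Sum.inl u) : Vt D N)))
      (S₂.image (fun u => (Sum.inl (Sum.inr u) : Vt D N)))
  have e1 : (S₁.image (fun u => (Sum.inl (Sum.inl u) : Vt D N))).card ≤ S₁.card := card_image_le
  have e2 : (S₂.image (fun u => (Sum.inl (Sum.inr u) : Vt D N))).card ≤ S₂.card := card_image_le
  have e3 : (S₃.image (fun u => (Sum.inr u : Vt D N))).card ≤ S₃.card := card_image_le
  omega

end Pool.Agent.W460.BVVCB
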