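import Pool.Agent.W198.TC.Basic

open Complex Filter Topology Set MeasureTheory

namespace TC

namespace RK

/-- the width of the product of two Gaussians -/
noncomputable def hp (H : ℝ) : ℝ := H / Real.sqrt (H ^ 2 + 1)

lemma hp_pos {H : ℝ} (hH : 0 < H) : 0 < hp H := by
  unfold hp; positivity

lemma hp_sq (H : ℝ) : hp H ^ 2 = H ^ 2 / (H ^ 2 + 1) := by
  unfold hp
  rw [div_pow, Real.sq_sqrt (by positivity)]

/-- the centre of the product of two Gaussians -/
noncomputable def cc (τ H g : ℝ) : ℝ := (τ + H ^ 2 * g) / (H ^ 2 + 1)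

noncomputable def AA (τ H g : ℝ) : ℝ := Real.exp (-(g - τ) ^ 2 / (2 * (H ^ 2 + 1)))

lemma prod_gauss (τ H g t : ℝ) (hH : 0 < H) :
    om τ H t * Real.exp (-(g - t) ^ 2 / 2) = AA τ H g * om (cc τ H g) (hp H) t := by
  unfold om AA
  rw [← Real.exp_add, ← Real.exp_add]
  congr 1
  rw [hp_sq]
  unfold cc
  have h1 : H ^ 2 + 1 ≠ 0 := by positivity
  have h2 : H ≠ 0 := hH.ne'
  field_simp
  ring

/-- the Gaussian in the frequency variable -/
noncomputable def PH (τ H g v : ℝ) : ℂ :=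
  ((AA τ H g * (Real.sqrt (2 * Real.pi) * hp H) * om 0 (1 / hp H) v : ℝ) : ℂ) *
    cexp (((v * (cc τ H g - g) : ℝ) : ℂ) * I)

lemma om_width (H v : ℝ) (hH : 0 < H) : om 0 (1 / hp H) v = Real.exp (-(hp H ^ 2 * v ^ 2) / 2) := by
  have := hp_pos hH
  unfold om
  congr 1
  field_simp
  ring

lemma PH_integrable (τ H g : ℝ) (hH : 0 < H) : Integrable (PH τ H g) := by
  have h := (gau 0 (1 / hp H) (cc τ H g - g) (by have := hp_pos hH; positivity)).1
  have h2 := h.const_mul ((AA τ H g * (Real.sqrt (2 * Real.pi) * hp H) : ℝ) : ℂ)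
  refine h2.congr (Eventually.of_forall fun v => ?_)
  unfold PH
  simp only
  push_cast
  ring

lemma PH_total (τ H g : ℝ) (hH : 0 < H) :
    ∫ v, PH τ H g v = ((2 * Real.pi * om τ H g : ℝ) : ℂ) := by
  have hp0 := hp_pos hH
  have h := (gau 0 (1 / hp H) (cc τ H g - g) (by positivity)).2
  have e : ∀ v, PH τ H g v = ((AA τ H g * (Real.sqrt (2 * Real.pi) * hp H) : ℝ) : ℂ) *
      ((om 0 (1 / hp H) v : ℂ) * cexp (((v * (cc τ H g - g) : ℝ) : ℂ) * I)) := by
    intro v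
    unfold PH
    push_cast
    ring
  simp_rw [e]
  rw [integral_const_mul, h]
  simp only [zero_mul, ofReal_zero, Complex.exp_zero, mul_one]
  rw [← ofReal_mul]
  congr 1
  have h3 : AA τ H g * (Real.sqrt (2 * Real.pi) * hp H) * (Real.sqrt (2 * Real.pi) * (1 / hp H) *
      Real.exp (-((1 / hp H) ^ 2 * (cc τ H g - g) ^ 2) / 2)) =
      (Real.sqrt (2 * Real.pi) * Real.sqrt (2 * Real.pi)) * (hp H * (1 / hp H)) *
      (AA τ H g * Real.exp (-((1 / hp H) ^ 2 * (cc τ H g - g) ^ 2) / 2)) := by ring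
  rw [h3, Real.mul_self_sqrt (by positivity), mul_one_div_cancel hp0.ne', mul_one]
  congr 1
  unfold AA om
  rw [← Real.exp_add]
  congr 1
  rw [div_pow, hp_sq]
  unfold cc
  have h1 : H ^ 2 + 1 ≠ 0 := by positivity
  have h2 : H ≠ 0 := hH.ne'
  field_simp
  ring

lemma PH_norm (τ H g v : ℝ) (hH : 1 ≤ H) :
    ‖PH τ H g v‖ ≤ Real.sqrt (2 * Real.pi) * Real.exp (-v ^ 2 / 4) := by
  have hH0 : 0 < H := by linarith
  have hp0 := hp_pos hH0
  unfold PH
  rw [norm_mul, Complex.norm_exp_ofReal_mul_I, mul_one, Complex.norm_real, Real.norm_eq_abs,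
    abs_of_nonneg (by unfold AA om; positivity), om_width H v hH0]
  have hA : AA τ H g ≤ 1 := by
    unfold AA
    rw [Real.exp_le_one_iff]
    have : 0 ≤ (g - τ) ^ 2 / (2 * (H ^ 2 + 1)) := by positivity
    rw [neg_div]; linarith
  have hp1 : hp H ≤ 1 := by
    unfold hp
    rw [div_le_one (by positivity)]
    apply Real.le_sqrt_of_sq_le
    linarith
  have hp2 : 1 / 2 ≤ hp H ^ 2 := by
    rw [hp_sq, div_le_div_iff₀ (by norm_num) (by positivity)]
    nlinarith
  have he : Real.exp (-(hp H ^ 2 * v ^ 2) / 2) ≤ Real.exp (-v ^ 2 / 4) := by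
    apply Real.exp_le_exp.mpr
    nlinarith [sq_nonneg v]
  have hs : 0 ≤ Real.sqrt (2 * Real.pi) := Real.sqrt_nonneg _
  have hA0 : 0 ≤ AA τ H g := (Real.exp_pos _).le
  calc AA τ H g * (Real.sqrt (2 * Real.pi) * hp H) * Real.exp (-(hp H ^ 2 * v ^ 2) / 2)
      ≤ 1 * (Real.sqrt (2 * Real.pi) * 1) * Real.exp (-v ^ 2 / 4) := by
        gcongr
    _ = _ := by ring

/-- the tail of the frequency integral -/
lemma PH_tail (τ H g l M G : ℝ) (hH : 1 ≤ H) (hG : 0 ≤ G) (hl : |l| + G ≤ M) :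
    ‖(∫ v, PH τ H g v) - ∫ v in (l - M)..(l + M), PH τ H g v‖ ≤
      4 * Real.pi * Real.exp (-(G ^ 2) / 8) := by
  have hH0 : 0 < H := by linarith
  have hM : l - M ≤ l + M := by
    have := abs_nonneg l
    linarith
  rw [intervalIntegral.integral_of_le hM]
  have hI := PH_integrable τ H g hH0
  rw [← integral_add_compl (measurableSet_Ioc (a := l - M) (b := l + M)) hI, add_sub_cancel_left]
  have hom := om_integrable 0 2 (by norm_num)
  have hgi : Integrable (fun v => Real.sqrt (2 * Real.pi) * Real.exp (-(G ^ 2) / 8) * om 0 2 v) :=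
    hom.const_mul _
  calc ‖∫ v in (Ioc (l - M) (l + M))ᶜ, PH τ H g v‖
      ≤ ∫ v in (Ioc (l - M) (l + M))ᶜ,
          Real.sqrt (2 * Real.pi) * Real.exp (-(G ^ 2) / 8) * om 0 2 v := by
        apply norm_integral_le_of_norm_le hgi.integrableOn
        rw [ae_restrict_iff' measurableSet_Ioc.compl]
        refine Eventually.of_forall fun v hv => ?_
        refine (PH_norm τ H g v hH).trans ?_
        have hv' : G ^ 2 ≤ v ^ 2 := by
          rw [mem_compl_iff, mem_Ioc, not_and_or, not_lt, not_le] at hv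
          have := abs_le.mp (le_refl |l|)
          rcases hv with h | h
          · nlinarith
          · nlinarith
        unfold om
        rw [mul_assoc, ← Real.exp_add]
        gcongr
        nlinarith
    _ ≤ ∫ v, Real.sqrt (2 * Real.pi) * Real.exp (-(G ^ 2) / 8) * om 0 2 v := by
        apply setIntegral_le_integral hgi
        refine Eventually.of_forall fun v => ?_
        have := om_pos 0 2 v
        simp only [Pi.zero_apply]
        positivity
    _ = 4 * Real.pi * Real.exp (-(G ^ 2) / 8) := by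
        rw [integral_const_mul, om_integral 0 2 (by norm_num)]
        have : Real.sqrt (2 * Real.pi) * Real.sqrt (2 * Real.pi) = 2 * Real.pi :=
          Real.mul_self_sqrt (by positivity)
        linear_combination (2 * Real.exp (-(G ^ 2) / 8)) * this

lemma inner_int (τ H g l u : ℝ) (hH : 0 < H) :
    ∫ t : ℝ, ((om τ H t * Real.exp (-(g - t) ^ 2 / 2) : ℝ) : ℂ) * cexp (((t * l : ℝ) : ℂ) * I) *
      cexp (((u * (g - t) : ℝ) : ℂ) * I) =
    cexp (((g * l : ℝ) : ℂ) * I) * PH τ H g (l - u) := by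
  have h := (gau (cc τ H g) (hp H) (l - u) (hp_pos hH)).2
  have e : ∀ t, ((om τ H t * Real.exp (-(g - t) ^ 2 / 2) : ℝ) : ℂ) * cexp (((t * l : ℝ) : ℂ) * I) *
      cexp (((u * (g - t) : ℝ) : ℂ) * I) =
      ((AA τ H g : ℂ) * cexp (((u * g : ℝ) : ℂ) * I)) *
        ((om (cc τ H g) (hp H) t : ℂ) * cexp (((t * (l - u) : ℝ) : ℂ) * I)) := by
    intro t
    rw [prod_gauss τ H g t hH]
    have : cexp (((t * l : ℝ) : ℂ) * I) * cexp (((u * (g - t) : ℝ) : ℂ) * I) =
        cexp (((u * g : ℝ) : ℂ) * I) * cexp (((t * (l - u) : ℝ) : ℂ) * I) := by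
      rw [← Complex.exp_add, ← Complex.exp_add]
      congr 1
      push_cast
      ring
    rw [mul_assoc, this]
    push_cast
    ring
  simp_rw [e]
  rw [integral_const_mul, h]
  unfold PH
  rw [om_width H _ hH]
  have : cexp (((u * g : ℝ) : ℂ) * I) * cexp (((cc τ H g * (l - u) : ℝ) : ℂ) * I) =
      cexp (((g * l : ℝ) : ℂ) * I) * cexp ((((l - u) * (cc τ H g - g) : ℝ) : ℂ) * I) := by
    rw [← Complex.exp_add, ← Complex.exp_add]
    congr 1
    push_cast
    ring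
  push_cast at this ⊢
  linear_combination ((AA τ H g : ℂ) * ((Real.sqrt (2 * Real.pi) : ℂ) * hp H *
    cexp (-((hp H : ℂ) ^ 2 * ((l : ℂ) - u) ^ 2) / 2))) * this

/-- the integral over the frequencies, as a function of `t` -/
noncomputable def CG (M s : ℝ) : ℝ := ∫ u in (0 : ℝ)..M, Real.cos (u * s)

lemma CG_eq (M s : ℝ) : ((CG M s : ℝ) : ℂ) =
    (1 / 2) * ∫ u in (-M)..M, cexp (((u * s : ℝ) : ℂ) * I) := by
  have hc : Continuous (fun u : ℝ => cexp (((u * s : ℝ) : ℂ) * I)) := by fun_prop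
  have h1 : ∫ u in (-M)..M, cexp (((u * s : ℝ) : ℂ) * I) =
      (∫ u in (-M)..0, cexp (((u * s : ℝ) : ℂ) * I)) +
        ∫ u in (0 : ℝ)..M, cexp (((u * s : ℝ) : ℂ) * I) :=
    (intervalIntegral.integral_add_adjacent_intervals (hc.intervalIntegrable _ _)
      (hc.intervalIntegrable _ _)).symm
  have h2 : (∫ u in (-M)..0, cexp (((u * s : ℝ) : ℂ) * I)) =
      ∫ u in (0 : ℝ)..M, cexp (((-u * s : ℝ) : ℂ) * I) := by
    have := intervalIntegral.integral_comp_neg (a := (0 : ℝ)) (b := M)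
      (fun u : ℝ => cexp (((u * s : ℝ) : ℂ) * I))
    rw [neg_zero] at this
    exact this.symm
  have hc2 : Continuous (fun u : ℝ => cexp (((-u * s : ℝ) : ℂ) * I)) := by fun_prop
  rw [h1, h2, ← intervalIntegral.integral_add (hc2.intervalIntegrable _ _)
    (hc.intervalIntegrable _ _)]
  unfold CG
  rw [← intervalIntegral.integral_ofReal, ← intervalIntegral.integral_const_mul]
  congr 1
  ext u
  rw [ofReal_cos, Complex.cos]
  push_cast
  ring_nf

lemma CG_cont (M : ℝ) : Continuous (CG M) := by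
  unfold CG
  apply intervalIntegral.continuous_parametric_intervalIntegral_of_continuous'
  fun_prop

lemma CG_bound (M s : ℝ) (hM : 0 ≤ M) : |CG M s| ≤ M := by
  unfold CG
  have := intervalIntegral.norm_integral_le_of_norm_le_const (a := 0) (b := M)
    (f := fun u : ℝ => Real.cos (u * s)) (C := 1) (fun u _ => by
      rw [Real.norm_eq_abs]; exact Real.abs_cos_le_one _)
  rw [Real.norm_eq_abs] at this
  simpa [abs_of_nonneg hM] using this

/-- one frequency -/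
noncomputable def JJ (τ H M g l : ℝ) : ℂ :=
  ∫ t : ℝ, ((om τ H t * Real.exp (-(g - t) ^ 2 / 2) : ℝ) : ℂ) * cexp (((t * l : ℝ) : ℂ) * I) *
    ((CG M (g - t) : ℝ) : ℂ)

lemma exp_le_one (g t : ℝ) : Real.exp (-(g - t) ^ 2 / 2) ≤ 1 := by
  rw [Real.exp_le_one_iff]
  nlinarith [sq_nonneg (g - t)]

lemma JJ_integrable (τ H M g l : ℝ) (hH : 0 < H) (hM : 0 ≤ M) :
    Integrable (fun t : ℝ => ((om τ H t * Real.exp (-(g - t) ^ 2 / 2) : ℝ) : ℂ) *
      cexp (((t * l : ℝ) : ℂ) * I) * ((CG M (g - t) : ℝ) : ℂ)) := by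
  have hom := (om_integrable τ H hH).mul_const M
  refine hom.mono' ?_ (Eventually.of_forall fun t => ?_)
  · have h1 := om_cont τ H
    have h2 := CG_cont M
    have : Continuous (fun t : ℝ => ((om τ H t * Real.exp (-(g - t) ^ 2 / 2) : ℝ) : ℂ) *
      cexp (((t * l : ℝ) : ℂ) * I) * ((CG M (g - t) : ℝ) : ℂ)) := by fun_prop
    exact this.aestronglyMeasurable
  · rw [norm_mul, norm_mul, Complex.norm_exp_ofReal_mul_I, mul_one, Complex.norm_real,
      Complex.norm_real, Real.norm_eq_abs, Real.norm_eq_abs,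
      abs_of_nonneg (by have := om_pos τ H t; positivity)]
    have h1 := om_pos τ H t
    have h2 := exp_le_one g t
    have h3 := CG_bound M (g - t) hM
    calc om τ H t * Real.exp (-(g - t) ^ 2 / 2) * |CG M (g - t)| ≤ om τ H t * 1 * M := by
          gcongr
      _ = om τ H t * M := by ring

lemma JJ_eq (τ H M g l : ℝ) (hH : 0 < H) (hM : 0 ≤ M) :
    JJ τ H M g l = (1 / 2) * (cexp (((g * l : ℝ) : ℂ) * I) *
      ∫ v in (l - M)..(l + M), PH τ H g v) := by
  unfold JJ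
  have e : ∀ t : ℝ, ((om τ H t * Real.exp (-(g - t) ^ 2 / 2) : ℝ) : ℂ) *
      cexp (((t * l : ℝ) : ℂ) * I) * ((CG M (g - t) : ℝ) : ℂ) =
      (1 / 2) * ∫ u in Ioc (-M) M, ((om τ H t * Real.exp (-(g - t) ^ 2 / 2) : ℝ) : ℂ) *
        cexp (((t * l : ℝ) : ℂ) * I) * cexp (((u * (g - t) : ℝ) : ℂ) * I) := by
    intro t
    rw [CG_eq, intervalIntegral.integral_of_le (by linarith), integral_const_mul]
    ring
  simp_rw [e]
  rw [integral_const_mul]
  congr 1
  rw [integral_integral_swap]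
  · have e2 : ∀ u : ℝ, ∫ t : ℝ, ((om τ H t * Real.exp (-(g - t) ^ 2 / 2) : ℝ) : ℂ) *
        cexp (((t * l : ℝ) : ℂ) * I) * cexp (((u * (g - t) : ℝ) : ℂ) * I) =
        cexp (((g * l : ℝ) : ℂ) * I) * PH τ H g (l - u) := fun u => inner_int τ H g l u hH
    simp_rw [e2]
    rw [integral_const_mul, ← intervalIntegral.integral_of_le (by linarith),
      intervalIntegral.integral_comp_sub_left (fun v => PH τ H g v) l, sub_neg_eq_add]
  · have h1 := om_cont τ H
    have hc : Continuous (Function.uncurry fun (t u : ℝ) =>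
        ((om τ H t * Real.exp (-(g - t) ^ 2 / 2) : ℝ) : ℂ) *
        cexp (((t * l : ℝ) : ℂ) * I) * cexp (((u * (g - t) : ℝ) : ℂ) * I)) := by
      unfold Function.uncurry
      fun_prop
    have hdom : Integrable (fun p : ℝ × ℝ => om τ H p.1 * (1 : ℝ))
        (volume.prod (volume.restrict (Ioc (-M) M))) := by
      apply Integrable.mul_prod (f := fun t => om τ H t) (g := fun _ => (1 : ℝ))
        (om_integrable τ H hH)
      exact integrable_const _
    refine hdom.mono' hc.aestronglyMeasurable (Eventually.of_forall fun p => ?_)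
    simp only [Function.uncurry]
    rw [norm_mul, norm_mul, Complex.norm_exp_ofReal_mul_I, Complex.norm_exp_ofReal_mul_I, mul_one,
      mul_one, Complex.norm_real, Real.norm_eq_abs,
      abs_of_nonneg (by have := om_pos τ H p.1; positivity)]
    have h1 := om_pos τ H p.1
    have h2 := exp_le_one g p.1
    gcongr

lemma JJ_main (τ H M g l G : ℝ) (hH : 1 ≤ H) (hG : 0 ≤ G) (hl : |l| + G ≤ M) :
    ‖(om τ H g : ℂ) * cexp (((g * l : ℝ) : ℂ) * I) - (1 / Real.pi : ℝ) * JJ τ H M g l‖ ≤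
      2 * Real.exp (-(G ^ 2) / 8) := by
  have hH0 : 0 < H := by linarith
  have hM : 0 ≤ M := by have := abs_nonneg l; linarith
  rw [JJ_eq τ H M g l hH0 hM]
  have hpi : (Real.pi : ℂ) ≠ 0 := by exact_mod_cast Real.pi_ne_zero
  have h1 : (om τ H g : ℂ) = (1 / (2 * Real.pi) : ℝ) * ∫ v, PH τ H g v := by
    rw [PH_total τ H g hH0]
    push_cast
    field_simp
  have h2 : (om τ H g : ℂ) * cexp (((g * l : ℝ) : ℂ) * I) - (1 / Real.pi : ℝ) *
      ((1 / 2) * (cexp (((g * l : ℝ) : ℂ) * I) * ∫ v in (l - M)..(l + M), PH τ H g v)) =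
      (1 / (2 * Real.pi) : ℝ) * cexp (((g * l : ℝ) : ℂ) * I) *
        ((∫ v, PH τ H g v) - ∫ v in (l - M)..(l + M), PH τ H g v) := by
    rw [h1]
    push_cast
    field_simp
  rw [h2, norm_mul, norm_mul, Complex.norm_exp_ofReal_mul_I, mul_one, Complex.norm_real,
    Real.norm_eq_abs, abs_of_nonneg (by positivity)]
  have h3 := PH_tail τ H g l M G hH hG hl
  calc 1 / (2 * Real.pi) * _ ≤ 1 / (2 * Real.pi) * (4 * Real.pi * Real.exp (-(G ^ 2) / 8)) := by
        gcongr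
    _ = 2 * Real.exp (-(G ^ 2) / 8) := by
        field_simp
        ring

lemma normsq_eq {ι : Type*} (S : Finset ι) (d lm : ι → ℝ) (F : ℝ → ℂ)
    (hF : ∀ t, F t = ∑ x ∈ S, (d x : ℂ) * cexp (((-(t * lm x) : ℝ) : ℂ) * I)) (t : ℝ) :
    ((‖F t‖ ^ 2 : ℝ) : ℂ) = ∑ x ∈ S, ∑ y ∈ S, ((d x * d y : ℝ) : ℂ) *
      cexp (((t * (lm y - lm x) : ℝ) : ℂ) * I) := by
  have h1 : ((‖F t‖ ^ 2 : ℝ) : ℂ) = F t * (starRingEnd ℂ) (F t) := by
    rw [Complex.mul_conj']
    push_cast
    rfl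
  have h2 : (starRingEnd ℂ) (F t) = ∑ y ∈ S, (d y : ℂ) * cexp (((t * lm y : ℝ) : ℂ) * I) := by
    rw [hF t, map_sum]
    refine Finset.sum_congr rfl fun y _ => ?_
    rw [map_mul, Complex.conj_ofReal, ← Complex.exp_conj, map_mul, Complex.conj_ofReal,
      Complex.conj_I]
    congr 2
    push_cast
    ring
  rw [h1, h2, hF t, Finset.sum_mul_sum]
  refine Finset.sum_congr rfl fun x _ => Finset.sum_congr rfl fun y _ => ?_
  have : cexp (((-(t * lm x) : ℝ) : ℂ) * I) * cexp (((t * lm y : ℝ) : ℂ) * I) =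
      cexp (((t * (lm y - lm x) : ℝ) : ℂ) * I) := by
    rw [← Complex.exp_add]
    congr 1
    push_cast
    ring
  rw [← this]
  push_cast
  ring

lemma re_int (Z : Finset ℝ) (m : ℝ → ℕ) (M t : ℝ) :
    (∫ u in (0 : ℝ)..M, (FF Z m u t).re) =
      ∑ g ∈ Z, ((m g : ℝ) * Real.exp (-(g - t) ^ 2 / 2)) * CG M (g - t) := by
  have e : ∀ u, (FF Z m u t).re = ∑ g ∈ Z, ((m g : ℝ) * Real.exp (-(g - t) ^ 2 / 2)) *
      Real.cos (u * (g - t)) := by
    intro u
    unfold FF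
    rw [Complex.re_sum]
    refine Finset.sum_congr rfl fun g _ => ?_
    rw [Complex.re_ofReal_mul, Complex.exp_ofReal_mul_I_re]
  simp_rw [e]
  rw [intervalIntegral.integral_finsetSum]
  · refine Finset.sum_congr rfl fun g _ => ?_
    rw [intervalIntegral.integral_const_mul]
    rfl
  · intro g _
    apply Continuous.intervalIntegrable
    fun_prop

lemma assemble {ι : Type*} (S : Finset ι) (d lm : ι → ℝ) (F : ℝ → ℂ) (L : ℝ)
    (hF : ∀ t, F t = ∑ x ∈ S, (d x : ℂ) * cexp (((-(t * lm x) : ℝ) : ℂ) * I))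
    (hL : ∀ x ∈ S, ∀ y ∈ S, |lm y - lm x| ≤ L) (Z : Finset ℝ) (m : ℝ → ℕ) (τ H M G : ℝ)
    (hH : 1 ≤ H) (hG : 0 ≤ G) (hM : L + G ≤ M) (hM0 : 0 ≤ M) :
    |(∑ g ∈ Z, (m g : ℝ) * (om τ H g * ‖F g‖ ^ 2)) -
      (1 / Real.pi) * ∫ t : ℝ, om τ H t * ‖F t‖ ^ 2 * (∫ u in (0 : ℝ)..M, (FF Z m u t).re)| ≤
    2 * (∑ g ∈ Z, (m g : ℝ)) * (∑ x ∈ S, |d x|) ^ 2 * Real.exp (-(G ^ 2) / 8) := by
  have hH0 : 0 < H := by linarith
  -- the integral
  have hint : ((∫ t : ℝ, om τ H t * ‖F t‖ ^ 2 * (∫ u in (0 : ℝ)..M, (FF Z m u t).re) : ℝ) : ℂ) =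
      ∑ g ∈ Z, ∑ x ∈ S, ∑ y ∈ S, (((m g : ℝ) * (d x * d y) : ℝ) : ℂ) *
        JJ τ H M g (lm y - lm x) := by
    rw [← integral_complex_ofReal]
    have e : ∀ t : ℝ, ((om τ H t * ‖F t‖ ^ 2 * (∫ u in (0 : ℝ)..M, (FF Z m u t).re) : ℝ) : ℂ) =
        ∑ g ∈ Z, ∑ x ∈ S, ∑ y ∈ S, (((m g : ℝ) * (d x * d y) : ℝ) : ℂ) *
          (((om τ H t * Real.exp (-(g - t) ^ 2 / 2) : ℝ) : ℂ) *
            cexp (((t * (lm y - lm x) : ℝ) : ℂ) * I) * ((CG M (g - t) : ℝ) : ℂ)) := by
      intro t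
      rw [re_int, ofReal_mul, ofReal_mul, normsq_eq S d lm F hF t, ofReal_sum, Finset.mul_sum]
      refine Finset.sum_congr rfl fun g _ => ?_
      rw [Finset.mul_sum, Finset.sum_mul]
      refine Finset.sum_congr rfl fun x _ => ?_
      rw [Finset.mul_sum, Finset.sum_mul]
      refine Finset.sum_congr rfl fun y _ => ?_
      push_cast
      ring
    simp_rw [e]
    have hi : ∀ g x y, Integrable (fun t : ℝ => (((m g : ℝ) * (d x * d y) : ℝ) : ℂ) *
          (((om τ H t * Real.exp (-(g - t) ^ 2 / 2) : ℝ) : ℂ) *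
            cexp (((t * (lm y - lm x) : ℝ) : ℂ) * I) * ((CG M (g - t) : ℝ) : ℂ))) := fun g x y =>
      (JJ_integrable τ H M g (lm y - lm x) hH0 hM0).const_mul _
    rw [integral_finsetSum _ fun g _ => integrable_finsetSum _ fun x _ =>
      integrable_finsetSum _ fun y _ => hi g x y]
    refine Finset.sum_congr rfl fun g _ => ?_
    rw [integral_finsetSum _ fun x _ => integrable_finsetSum _ fun y _ => hi g x y]
    refine Finset.sum_congr rfl fun x _ => ?_
    rw [integral_finsetSum _ fun y _ => hi g x y]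
    refine Finset.sum_congr rfl fun y _ => ?_
    rw [integral_const_mul]
    rfl
  have hsum : ((∑ g ∈ Z, (m g : ℝ) * (om τ H g * ‖F g‖ ^ 2) : ℝ) : ℂ) =
      ∑ g ∈ Z, ∑ x ∈ S, ∑ y ∈ S, (((m g : ℝ) * (d x * d y) : ℝ) : ℂ) *
        ((om τ H g : ℂ) * cexp (((g * (lm y - lm x) : ℝ) : ℂ) * I)) := by
    rw [ofReal_sum]
    refine Finset.sum_congr rfl fun g _ => ?_
    rw [ofReal_mul, ofReal_mul, normsq_eq S d lm F hF g, Finset.mul_sum, Finset.mul_sum]
    refine Finset.sum_congr rfl fun x _ => ?_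
    rw [Finset.mul_sum, Finset.mul_sum]
    refine Finset.sum_congr rfl fun y _ => ?_
    push_cast
    ring
  rw [← Real.norm_eq_abs, ← Complex.norm_real, ofReal_sub, ofReal_mul, hint, hsum]
  have hdiff : (∑ g ∈ Z, ∑ x ∈ S, ∑ y ∈ S, (((m g : ℝ) * (d x * d y) : ℝ) : ℂ) *
        ((om τ H g : ℂ) * cexp (((g * (lm y - lm x) : ℝ) : ℂ) * I))) -
      ((1 / Real.pi : ℝ) : ℂ) * (∑ g ∈ Z, ∑ x ∈ S, ∑ y ∈ S, (((m g : ℝ) * (d x * d y) : ℝ) : ℂ) *
        JJ τ H M g (lm y - lm x)) =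
      ∑ g ∈ Z, ∑ x ∈ S, ∑ y ∈ S, (((m g : ℝ) * (d x * d y) : ℝ) : ℂ) *
        ((om τ H g : ℂ) * cexp (((g * (lm y - lm x) : ℝ) : ℂ) * I) -
          ((1 / Real.pi : ℝ) : ℂ) * JJ τ H M g (lm y - lm x)) := by
    rw [Finset.mul_sum, ← Finset.sum_sub_distrib]
    refine Finset.sum_congr rfl fun g _ => ?_
    rw [Finset.mul_sum, ← Finset.sum_sub_distrib]
    refine Finset.sum_congr rfl fun x _ => ?_
    rw [Finset.mul_sum, ← Finset.sum_sub_distrib]
    refine Finset.sum_congr rfl fun y _ => ?_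
    ring
  rw [hdiff]
  calc ‖_‖ ≤ ∑ g ∈ Z, ∑ x ∈ S, ∑ y ∈ S, ((m g : ℝ) * (|d x| * |d y|)) *
        (2 * Real.exp (-(G ^ 2) / 8)) := by
        refine (norm_sum_le _ _).trans (Finset.sum_le_sum fun g _ => ?_)
        refine (norm_sum_le _ _).trans (Finset.sum_le_sum fun x hx => ?_)
        refine (norm_sum_le _ _).trans (Finset.sum_le_sum fun y hy => ?_)
        rw [norm_mul, Complex.norm_real, Real.norm_eq_abs, abs_mul, abs_mul, Nat.abs_cast]
        gcongr
        exact JJ_main τ H M g (lm y - lm x) G hH hG (by have := hL x hx y hy; linarith)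
    _ = 2 * (∑ g ∈ Z, (m g : ℝ)) * (∑ x ∈ S, |d x|) ^ 2 * Real.exp (-(G ^ 2) / 8) := by
        have h3 : ∀ g ∈ Z, ∑ x ∈ S, ∑ y ∈ S, ((m g : ℝ) * (|d x| * |d y|)) *
            (2 * Real.exp (-(G ^ 2) / 8)) =
            (m g : ℝ) * ((∑ x ∈ S, |d x|) ^ 2 * (2 * Real.exp (-(G ^ 2) / 8))) := by
          intro g _
          have h4 : (∑ x ∈ S, |d x|) ^ 2 = ∑ x ∈ S, ∑ y ∈ S, |d x| * |d y| := by
            rw [pow_two, Finset.sum_mul_sum]
          rw [h4, Finset.sum_mul, Finset.mul_sum]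
          refine Finset.sum_congr rfl fun x _ => ?_
          rw [Finset.sum_mul, Finset.mul_sum]
          refine Finset.sum_congr rfl fun y _ => ?_
          ring
        rw [Finset.sum_congr rfl h3, ← Finset.sum_mul]
        ring

end RK

theorem rk : S_RK := by
  refine ⟨2, by norm_num, ?_⟩
  intro Z m α β N₁ N₂ c τ H M G hH hG hN₁ hN₂ hM
  let S : Finset (ℕ ⊕ (ℕ ⊕ Unit)) :=
    (Finset.Icc 2 N₁).disjSum ((Finset.Icc 2 N₂).disjSum {()})
  let d : ℕ ⊕ (ℕ ⊕ Unit) → ℝ := Sum.elim α (Sum.elim β fun _ => c)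
  let lm : ℕ ⊕ (ℕ ⊕ Unit) → ℝ :=
    Sum.elim (fun n => Real.log n) (Sum.elim (fun n => -Real.log n) fun _ => 0)
  have hN₁' : (1 : ℝ) ≤ N₁ := by exact_mod_cast hN₁
  have hN₂' : (1 : ℝ) ≤ N₂ := by exact_mod_cast hN₂
  have hlog : Real.log ((N₁ : ℝ) * N₂) = Real.log N₁ + Real.log N₂ :=
    Real.log_mul (by positivity) (by positivity)
  have h1 : 0 ≤ Real.log N₁ := Real.log_nonneg hN₁'
  have h2 : 0 ≤ Real.log N₂ := Real.log_nonneg hN₂'
  have hF : ∀ t, DD α β N₁ N₂ c t = ∑ x ∈ S, (d x : ℂ) *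
      cexp (((-(t * lm x) : ℝ) : ℂ) * I) := by
    intro t
    simp only [S, Finset.sum_disjSum, Finset.sum_singleton, d, lm, Sum.elim_inl, Sum.elim_inr]
    unfold DD DP
    rw [map_sum, add_assoc]
    congr 2
    · refine Finset.sum_congr rfl fun n _ => ?_
      rw [map_mul, Complex.conj_ofReal, ← Complex.exp_conj, map_mul, Complex.conj_ofReal,
        Complex.conj_I]
      congr 2
      push_cast
      ring
    · simp
  have hrange : ∀ x ∈ S, -Real.log N₂ ≤ lm x ∧ lm x ≤ Real.log N₁ := by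
    intro x hx
    have hlo : ∀ n N : ℕ, n ∈ Finset.Icc 2 N → 0 ≤ Real.log n ∧ Real.log n ≤ Real.log N := by
      intro n N hn
      rw [Finset.mem_Icc] at hn
      have h0 : (1 : ℝ) ≤ n := by exact_mod_cast (by omega : 1 ≤ n)
      exact ⟨Real.log_nonneg h0, Real.log_le_log (by linarith) (by exact_mod_cast hn.2)⟩
    simp only [S, Finset.mem_disjSum] at hx
    rcases hx with ⟨n, hn, rfl⟩ | ⟨b, ⟨n, hn, rfl⟩ | ⟨_, _, rfl⟩, rfl⟩
    · have := hlo n N₁ hn
      simp only [lm, Sum.elim_inl]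
      constructor <;> linarith
    · have := hlo n N₂ hn
      simp only [lm, Sum.elim_inl, Sum.elim_inr]
      constructor <;> linarith
    · simp only [lm, Sum.elim_inr]
      constructor <;> linarith
  have hL : ∀ x ∈ S, ∀ y ∈ S, |lm y - lm x| ≤ Real.log ((N₁ : ℝ) * N₂) := by
    intro x hx y hy
    have h3 := hrange x hx
    have h4 := hrange y hy
    rw [hlog, abs_le]
    constructor <;> linarith
  have hsz : ∑ x ∈ S, |d x| = sz α β N₁ N₂ c := by
    simp only [S, Finset.sum_disjSum, Finset.sum_singleton, d, Sum.elim_inl, Sum.elim_inr]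
    unfold sz
    ring
  have := RK.assemble S d lm (DD α β N₁ N₂ c) (Real.log ((N₁ : ℝ) * N₂)) hF hL Z m τ H M G hH hG
    hM (by rw [hlog] at hM; linarith)
  rw [hsz] at this
  exact this

end TC

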