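import Pool.Agent.W426.LE.Stm2
import Pool.Agent.W493.LE.GK

/-!
Project LE (helper426), part CIRC: circulant graphs on `2 p^k` vertices (helper460).
-/

set_option autoImplicit false
set_option linter.all false

namespace Pool.Agent.W460.LECirc

open Finset Pool.Agent.W426.LE
open scoped Classical

section

variable {n : ℕ} [NeZero n]

/-- reduction modulo `n` -/
noncomputable def cc (n : ℕ) : ZMod (2 * n) →+* ZMod n := ZMod.castHom (Dvd.intro_left 2 rfl) (ZMod n)

/-- reduction modulo `2` -/
noncomputable def pp (n : ℕ) : ZMod (2 * n) →+* ZMod 2 := ZMod.castHom (Dvd.intro n rfl) (ZMod 2)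

instance : NeZero (2 * n) := ⟨mul_ne_zero two_ne_zero (NeZero.ne n)⟩

theorem cc_val (x : ZMod (2 * n)) : cc n x = ((x.val : ℕ) : ZMod n) := by
  unfold cc
  rw [ZMod.castHom_apply]
  exact ZMod.cast_eq_val x

theorem pp_val (x : ZMod (2 * n)) : pp n x = ((x.val : ℕ) : ZMod 2) := by
  unfold pp
  rw [ZMod.castHom_apply]
  exact ZMod.cast_eq_val x

theorem pp_zero_iff (x : ZMod (2 * n)) : pp n x = 0 ↔ Even x.val := by
  rw [pp_val, ZMod.natCast_eq_zero_iff, even_iff_two_dvd]

theorem eq_zero_of (hn : Odd n) (x : ZMod (2 * n)) (h1 : cc n x = 0) (h2 : pp n x = 0) : x = 0 := by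
  rw [cc_val, ZMod.natCast_eq_zero_iff] at h1
  rw [pp_val, ZMod.natCast_eq_zero_iff] at h2
  have h3 : 2 * n ∣ x.val := (Nat.coprime_two_left.mpr hn).mul_dvd_of_dvd_of_dvd h2 h1
  have h4 := ZMod.val_lt x
  have h5 : x.val = 0 := Nat.eq_zero_of_dvd_of_lt h3 h4
  exact (ZMod.val_eq_zero x).mp h5

theorem zmod2 (x : ZMod 2) : x = 0 ∨ x = 1 := by
  revert x
  decide

theorem cc_inj (hn : Odd n) {x y : ZMod (2 * n)} (h1 : cc n x = cc n y)
    (h2 : Even x.val ↔ Even y.val) : x = y := by
  rw [← pp_zero_iff, ← pp_zero_iff] at h2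
  have h3 : pp n x = pp n y := by
    rcases zmod2 (pp n x) with h | h <;> rcases zmod2 (pp n y) with h' | h'
    · rw [h, h']
    · exact absurd (h'.symm.trans (h2.mp h)) (by decide)
    · exact absurd (h.symm.trans (h2.mpr h')) (by decide)
    · rw [h, h']
  rw [← sub_eq_zero]
  exact eq_zero_of hn _ (by rw [map_sub, h1, sub_self]) (by rw [map_sub, h3, sub_self])

/-- the bijection -/
noncomputable def ff (n : ℕ) (x : ZMod (2 * n)) : ZMod n × Bool := (cc n x, decide (Odd x.val))

theorem ff_bij (hn : Odd n) : Function.Bijective (ff n) := by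
  rw [Fintype.bijective_iff_injective_and_card]
  refine ⟨fun x y h => ?_, ?_⟩
  · have h1 : cc n x = cc n y := congrArg Prod.fst h
    have h2 : decide (Odd x.val) = decide (Odd y.val) := congrArg Prod.snd h
    have h3 : Odd x.val ↔ Odd y.val := decide_eq_decide.mp h2
    apply cc_inj hn h1
    rw [← Nat.not_odd_iff_even, ← Nat.not_odd_iff_even, h3]
  · rw [Fintype.card_prod, ZMod.card, ZMod.card, Fintype.card_bool, mul_comm]

theorem even_sub (u v : ZMod (2 * n)) : Even (v - u).val ↔ (Even v.val ↔ Even u.val) := by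
  rw [← pp_zero_iff, ← pp_zero_iff, ← pp_zero_iff, map_sub]
  rcases zmod2 (pp n u) with h | h <;> rcases zmod2 (pp n v) with h' | h' <;>
    rw [h, h'] <;> decide

theorem even_neg (u : ZMod (2 * n)) : Even (-u).val ↔ Even u.val := by
  rw [← pp_zero_iff, ← pp_zero_iff, map_neg, neg_eq_zero]

end

theorem main (h : S_GB) : S_CIRC := by
  intro p k hp hp2 hk Ω hΩ hE hEp hO1 hO2 c
  haveI hpf : Fact p.Prime := ⟨hp⟩
  haveI hn0 : NeZero (p ^ k) := ⟨pow_ne_zero _ hp.ne_zero⟩
  have hodd : Odd (p ^ k) := (hp.odd_of_ne_two hp2).pow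
  set SE : Finset (ZMod (2 * p ^ k)) := Ω.filter (fun x => Even x.val) with hSE
  set SO : Finset (ZMod (2 * p ^ k)) := Ω.filter (fun x => Odd x.val) with hSO
  set S : Finset (ZMod (p ^ k)) := SE.image (cc (p ^ k)) with hS
  set T : Finset (ZMod (p ^ k)) := SO.image (cc (p ^ k)) with hT
  have hmS : ∀ x : ZMod (2 * p ^ k), Even x.val → (cc (p ^ k) x ∈ S ↔ x ∈ Ω) := by
    intro x hx
    rw [hS, Finset.mem_image]
    constructor
    · rintro ⟨y, hy, hyx⟩
      rw [hSE, Finset.mem_filter] at hy
      have : y = x := cc_inj hodd hyx ⟨fun _ => hx, fun _ => hy.2⟩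
      rw [← this]
      exact hy.1
    · intro hxΩ
      exact ⟨x, by rw [hSE, Finset.mem_filter]; exact ⟨hxΩ, hx⟩, rfl⟩
  have hmT : ∀ x : ZMod (2 * p ^ k), Odd x.val → (cc (p ^ k) x ∈ T ↔ x ∈ Ω) := by
    intro x hx
    rw [hT, Finset.mem_image]
    constructor
    · rintro ⟨y, hy, hyx⟩
      rw [hSO, Finset.mem_filter] at hy
      have : y = x := cc_inj hodd hyx (by
        rw [← Nat.not_odd_iff_even, ← Nat.not_odd_iff_even]
        exact ⟨fun h => absurd hy.2 h, fun h => absurd hx h⟩)
      rw [← this]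
      exact hy.1
    · intro hxΩ
      exact ⟨x, by rw [hSO, Finset.mem_filter]; exact ⟨hxΩ, hx⟩, rfl⟩
  have hSneg : ∀ x ∈ S, -x ∈ S := by
    intro x hx
    rw [hS, Finset.mem_image] at hx
    obtain ⟨y, hy, rfl⟩ := hx
    rw [hSE, Finset.mem_filter] at hy
    rw [← map_neg, hmS _ ((even_neg y).mpr hy.2)]
    exact hΩ y hy.1
  have hTneg : ∀ x ∈ T, -x ∈ T := by
    intro x hx
    rw [hT, Finset.mem_image] at hx
    obtain ⟨y, hy, rfl⟩ := hx
    rw [hSO, Finset.mem_filter] at hy
    have h1 : Odd (-y).val := by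
      rw [← Nat.not_even_iff_odd, even_neg, Nat.not_even_iff_odd]
      exact hy.2
    rw [← map_neg, hmT _ h1]
    exact hΩ y hy.1
  have hcS : S.card = p - 1 := by
    rw [hS, Finset.card_image_of_injOn, hE]
    intro x hx y hy hxy
    have hx' : x ∈ SE := hx
    have hy' : y ∈ SE := hy
    rw [hSE, Finset.mem_filter] at hx' hy'
    exact cc_inj hodd hxy ⟨fun _ => hy'.2, fun _ => hx'.2⟩
  have hcT : T.card = SO.card := by
    rw [hT, Finset.card_image_of_injOn]
    intro x hx y hy hxy
    have hx' : x ∈ SO := hx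
    have hy' : y ∈ SO := hy
    rw [hSO, Finset.mem_filter] at hx' hy'
    exact cc_inj hodd hxy (by
      rw [← Nat.not_odd_iff_even, ← Nat.not_odd_iff_even]
      exact ⟨fun h => absurd hx'.2 h, fun h => absurd hy'.2 h⟩)
  have hp1 := hp.one_lt
  have hS0 : ∀ x ∈ S, ZMod.castHom (dvd_pow_self p hk) (ZMod p) x ≠ 0 := by
    intro x hx
    rw [hS, Finset.mem_image] at hx
    obtain ⟨y, hy, rfl⟩ := hx
    rw [hSE, Finset.mem_filter] at hy
    rw [cc_val, map_natCast]
    intro h0
    exact hEp y hy.1 hy.2 ((ZMod.natCast_eq_zero_iff _ _).mp h0)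
  have hG := h p k hp2 hk S S T hSneg hSneg (by omega) (by omega) hS0 hS0
    (by rw [← Finset.card_pos, hcT]; omega) (by rw [hcT]; omega) c
  -- the isomorphism
  let e : ZMod (2 * p ^ k) ≃ ZMod (p ^ k) × Bool := Equiv.ofBijective (ff (p ^ k)) (ff_bij hodd)
  have he : ∀ x, e x = (cc (p ^ k) x, decide (Odd x.val)) := fun x => rfl
  have hadj : ∀ u v : ZMod (2 * p ^ k), (BC (p ^ k) S S T).Adj (e u) (e v) ↔ (Circ (2 * p ^ k) Ω).Adj u v := by
    intro u v
    unfold BC Circ
    rw [SimpleGraph.fromRel_adj, SimpleGraph.fromRel_adj, e.injective.ne_iff]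
    apply and_congr_right
    intro _
    have hsym : (v - u ∈ Ω ∨ u - v ∈ Ω) ↔ v - u ∈ Ω := by
      constructor
      · rintro (h | h)
        · exact h
        · have := hΩ _ h
          rwa [neg_sub] at this
      · exact Or.inl
    rw [hsym, he, he]
    simp only
    have key : ∀ a b : ZMod (2 * p ^ k), cc (p ^ k) b - cc (p ^ k) a = cc (p ^ k) (b - a) := fun a b => (map_sub _ _ _).symm
    rw [key, key]
    have hodd_iff : ∀ x : ℕ, ¬ Even x ↔ Odd x := fun x => Nat.not_even_iff_odd
    by_cases hu : Even u.val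
    · have hu' : ¬ Odd u.val := Nat.not_odd_iff_even.mpr hu
      by_cases hv : Even v.val
      · have hv' : ¬ Odd v.val := Nat.not_odd_iff_even.mpr hv
        have h1 : Even (v - u).val := (even_sub u v).mpr ⟨fun _ => hu, fun _ => hv⟩
        have h2 : Even (u - v).val := (even_sub v u).mpr ⟨fun _ => hv, fun _ => hu⟩
        simp only [hu', hv', decide_false, true_and, Bool.false_eq_true, false_and, or_false, and_false]
        rw [hmS _ h1, hmS _ h2, hsym]
      · have hv' : Odd v.val := Nat.not_even_iff_odd.mp hv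
        have h1 : Odd (v - u).val := by
          rw [← Nat.not_even_iff_odd, even_sub]
          exact fun h => hv (h.mpr hu)
        simp only [hu', hv', decide_false, decide_true, true_and, Bool.false_eq_true, false_and,
          or_false, and_false, false_or, Bool.true_eq_false]
        rw [hmT _ h1]
    · have hu' : Odd u.val := Nat.not_even_iff_odd.mp hu
      by_cases hv : Even v.val
      · have hv' : ¬ Odd v.val := Nat.not_odd_iff_even.mpr hv
        have h1 : Odd (u - v).val := by
          rw [← Nat.not_even_iff_odd, even_sub]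
          exact fun h => hu (h.mpr hv)
        simp only [hu', hv', decide_false, decide_true, true_and, Bool.false_eq_true, false_and,
          or_false, and_false, false_or, Bool.true_eq_false]
        rw [hmT _ h1]
        constructor
        · intro h
          have := hΩ _ h
          rwa [neg_sub] at this
        · intro h
          have := hΩ _ h
          rwa [neg_sub] at this
      · have hv' : Odd v.val := Nat.not_even_iff_odd.mp hv
        have h1 : Even (v - u).val := (even_sub u v).mpr ⟨fun h => absurd h hv, fun h => absurd h hu⟩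
        have h2 : Even (u - v).val := (even_sub v u).mpr ⟨fun h => absurd h hu, fun h => absurd h hv⟩
        simp only [hu', hv', decide_true, true_and, Bool.true_eq_false, false_and, or_false,
          and_false, false_or]
        rw [hmS _ h1, hmS _ h2, hsym]
  let φ : Circ (2 * p ^ k) Ω ≃g BC (p ^ k) S S T := ⟨e, fun {u v} => hadj u v⟩
  exact Pool.Agent.W493.LE.GK.lecc_of_iso φ.symm hG

end Pool.Agent.W460.LECirc
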