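import Pool.Agent.W958.ST.Kz1
import Pool.Agent.W958.ST.Euler
import Pool.Agent.W177.ST.Sdim

/-!
ST-5, part 1: common lemmas.
-/

set_option autoImplicit false

namespace Pool.Agent.W460.STD

open MvPolynomial Pool.Agent.W958.ST

abbrev S := MvPolynomial (Fin 4) ℚ

theorem finrank_HW (k A : ℕ) :
    Module.finrank ℚ (HW ℚ (Fin 4) k A) = if A ≤ k then (k - A + 3).choose 3 else 0 := by
  split_ifs with h
  · rw [HW_eq_of_le h, ← Pool.Agent.W177.ST.sdim_four ℚ (k - A)]
    rfl
  · rw [HW_eq_of_lt (by omega)]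
    exact finrank_bot ℚ _

theorem finrank_exact {A B C : Type} [AddCommGroup A] [AddCommGroup B] [AddCommGroup C]
    [Module ℚ A] [Module ℚ B] [Module ℚ C] [Module.Finite ℚ B] (f : A →ₗ[ℚ] B) (g : B →ₗ[ℚ] C)
    (hf : Function.Injective f) (hg : Function.Surjective g)
    (h : LinearMap.range f = LinearMap.ker g) :
    Module.finrank ℚ B = Module.finrank ℚ A + Module.finrank ℚ C := by
  have h1 := LinearMap.finrank_range_add_finrank_ker g
  rw [LinearMap.range_eq_top.2 hg, finrank_top, ← h, LinearMap.finrank_range_of_inj hf] at h1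
  omega

theorem homW_of_mul {f g : S} {c k A : ℕ} (hf : f.IsHomogeneous c) (hf0 : f ≠ 0)
    (h : HomW (f * g) k A) : HomW g k (A + c) := by
  have key : ∀ n, (f * g).IsHomogeneous n → n < c → g = 0 := by
    intro n hn hlt
    have h2 := hcomp_mul (g := g) hf n
    rw [if_neg (by omega), mul_zero, homogeneousComponent_eq_self hn] at h2
    exact (mul_eq_zero.mp h2).resolve_left hf0
  constructor
  · intro hk
    have h1 := h.1 (by omega)
    have e : k - A = c + (k - (A + c)) := by omega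
    rw [e] at h1
    exact hom_of_mul hf hf0 h1
  · intro hk
    rcases Nat.lt_or_ge k A with h1 | h1
    · exact (mul_eq_zero.mp (h.2 h1)).resolve_left hf0
    · exact key _ (h.1 h1) (by omega)

/-- the eight covectors other than `d` -/
def be : Fin 8 → (Fin 4 → ℚ) :=
  ![![1, 0, 0, 0], ![0, 1, 0, 0], ![0, 0, 1, 0], ![0, 1, 0, 1], ![0, 0, 1, 1], ![1, 1, 0, 0],
    ![1, 0, 1, 0], ![1, 1, 1, 1]]

theorem mem_LT_iff (α : Fin 4 → ℚ) : α ∈ Pool.Agent.W958.ST.LT ↔ α = aT ∨ ∃ i, α = be i := by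
  simp only [Pool.Agent.W958.ST.LT, Set.mem_insert_iff, Set.mem_singleton_iff, aT]
  constructor
  · rintro (h | h | h | h | h | h | h | h | h)
    · exact Or.inr ⟨0, h⟩
    · exact Or.inr ⟨1, h⟩
    · exact Or.inr ⟨2, h⟩
    · exact Or.inl h
    · exact Or.inr ⟨5, h⟩
    · exact Or.inr ⟨4, h⟩
    · exact Or.inr ⟨6, h⟩
    · exact Or.inr ⟨3, h⟩
    · exact Or.inr ⟨7, h⟩
  · rintro (h | ⟨i, h⟩)
    · tauto
    · fin_cases i <;> simp only [be] at h <;> tauto

theorem be_ne (i : Fin 8) : be i ≠ 0 := by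
  intro h
  have h0 := congrFun h 0
  have h1 := congrFun h 1
  have h2 := congrFun h 2
  fin_cases i <;> simp [be] at h0 h1 h2

theorem be_pair (i j : Fin 8) (hij : i ≠ j) : ¬ lin (be i) ∣ lin (be j) := by
  intro h
  obtain ⟨c, hc⟩ := lin_dvd_lin (be_ne j) h
  have h' : ∀ k, be i k = c * be j k := by
    intro k
    have := congrFun hc k
    simp only [cv, Pi.smul_apply, smul_eq_mul, ← C_mul] at this
    exact C_injective _ _ this
  have h0 := h' 0
  have h1 := h' 1
  have h2 := h' 2
  have h3 := h' 3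
  clear h' hc h
  have h3' : be i 1 - be i 3 = c * (be j 1 - be j 3) := by rw [h1, h3]; ring
  fin_cases i <;> fin_cases j <;> first
    | exact absurd rfl hij
    | (exfalso
       simp [be] at h0 h1 h2 h3
       try linarith)

/-- the product of the eight linear forms -/
noncomputable def Q : S := ∏ i, lin (be i)

theorem Q_dvd {f : S} (h : ∀ i, lin (be i) ∣ f) : Q ∣ f := by
  unfold Q
  refine Finset.prod_dvd_of_isRelPrime ?_ fun i _ => h i
  intro i _ j _ hij
  have hp := (lin_prime (K := ℚ) (be_ne i)).irreducible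
  change IsRelPrime (lin (be i)) (lin (be j))
  exact hp.isRelPrime_iff_not_dvd.2 (be_pair i j hij)

theorem dvd_Q (i : Fin 8) : lin (be i) ∣ Q := Finset.dvd_prod_of_mem _ (Finset.mem_univ i)

theorem Q_ne : Q ≠ 0 := Finset.prod_ne_zero_iff.2 fun i _ => lin_ne (be_ne i)

theorem Q_hom : Q.IsHomogeneous 8 := by
  have h := IsHomogeneous.prod Finset.univ (fun i : Fin 8 => (lin (be i) : S)) (fun _ => 1)
    fun i _ => lin_hom _
  rw [Finset.sum_const, Finset.card_univ, Fintype.card_fin, smul_eq_mul, mul_one] at h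
  exact h

end Pool.Agent.W460.STD
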