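import Pool.Agent.W460.STD1

/-!
ST-5, part 2: the case p = 1.
-/

set_option autoImplicit false

namespace Pool.Agent.W460.STD

open MvPolynomial Pool.Agent.W958.ST

/-- the values of `θ_j` on `a`, `b`, `c` -/
noncomputable def tx (j : Fin 4) : S := tha (X 0) (X 1) (X 2) (X 3) j
noncomputable def ty (j : Fin 4) : S := thb (X 0) (X 1) (X 2) (X 3) j
noncomputable def tz (j : Fin 4) : S := thc (X 0) (X 1) (X 2) (X 3) j

theorem lin4 (α : Fin 4 → ℚ) : (lin α : S) = C (α 0) * X 0 + C (α 1) * X 1 + C (α 2) * X 2 +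
    C (α 3) * X 3 := by
  unfold lin
  rw [Fin.sum_univ_four]

/-- quotients -/
def qt {R : Type} [CommRing R] (a b c d : R) : Fin 4 → Fin 8 → R :=
  ![![-(2 * b * c + 2 * c * d + 2 * b * d + a * d + d * d), -((b + d) * (2 * c + d)),
      -((c + d) * (2 * b + d)), -(b * (2 * c + d)), -(c * (2 * b + d)),
      -(2 * b * c + 2 * c * d + d * d + d * (a + b)), -(2 * b * c + 2 * b * d + d * d + d * (a + c)),
      -(2 * b * c + a * d + b * d + c * d)],
    ![c * (a - d), -(c * (b + d)), (c + d) * (2 * a + c), -(b * c), c * (2 * a + c),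
      c * (a - b - d), c * (a + c + d), c * (a + c - b)],
    ![b * (a - d), (b + d) * (2 * a + b), -(b * (c + d)), b * (2 * a + b), -(b * c),
      b * (a + b + d), b * (a - c - d), b * (a + b - c)],
    ![a * (b + d) + (a + 2 * c) * (a + b), a * (b + d), a * (c + d), a * b, a * c,
      a * (a + b + 2 * c + d), a * (a + c + 2 * b + d), a * (a + b + c)]]

theorem th_lin_eq (i : Fin 8) (j : Fin 4) :
    C (be i 0) * tx j + C (be i 1) * ty j + C (be i 2) * tz j =
      lin (be i) * qt (X 0) (X 1) (X 2) (X 3) j i := by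
  rw [lin4]
  unfold tx ty tz
  generalize (X 0 : S) = a
  generalize (X 1 : S) = b
  generalize (X 2 : S) = c
  generalize (X 3 : S) = d
  fin_cases j <;> fin_cases i <;> simp [be, tha, thb, thc, qt] <;> ring

theorem th_lin (i : Fin 8) (j : Fin 4) :
    lin (be i) ∣ C (be i 0) * tx j + C (be i 1) * ty j + C (be i 2) * tz j :=
  ⟨_, th_lin_eq i j⟩

theorem hX (i : Fin 4) : (X i : S).IsHomogeneous 1 := isHomogeneous_X ℚ i

theorem m2 {f g : S} (hf : f.IsHomogeneous 1) (hg : g.IsHomogeneous 1) : (f * g).IsHomogeneous 2 :=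
  hf.mul hg

theorem m3 {f g : S} (hf : f.IsHomogeneous 1) (hg : g.IsHomogeneous 2) : (f * g).IsHomogeneous 3 :=
  hf.mul hg

theorem hom_of_eq {f g : S} {n : ℕ} (h : f = g) (hg : g.IsHomogeneous n) : f.IsHomogeneous n :=
  h ▸ hg

theorem t_hom (j : Fin 4) : (tx j).IsHomogeneous 3 ∧ (ty j).IsHomogeneous 3 ∧
    (tz j).IsHomogeneous 3 := by
  unfold tx ty tz
  have ha := hX 0
  have hb := hX 1
  have hc := hX 2
  have hd := hX 3
  generalize (X 0 : S) = a at *
  generalize (X 1 : S) = b at *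
  generalize (X 2 : S) = c at *
  generalize (X 3 : S) = d at *
  fin_cases j
  · refine ⟨hom_of_eq (g := -(a * (b * (c + c) + c * (d + d) + b * (d + d) + a * d + d * d))) ?_
        (m3 ha (((((m2 hb (hc.add hc)).add (m2 hc (hd.add hd))).add (m2 hb (hd.add hd))).add
          (m2 ha hd)).add (m2 hd hd))).neg,
      hom_of_eq (g := -(b * ((b + d) * (c + c + d)))) ?_
        (m3 hb (m2 (hb.add hd) ((hc.add hc).add hd))).neg,
      hom_of_eq (g := -(c * ((c + d) * (b + b + d)))) ?_
        (m3 hc (m2 (hc.add hd) ((hb.add hb).add hd))).neg⟩ <;>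
    simp [tha, thb, thc] <;> first | ring1 | (left; ring1) | (left; left; ring1)
  · refine ⟨hom_of_eq (g := a * (c * (a - d))) ?_ (m3 ha (m2 hc (ha.sub hd))),
      hom_of_eq (g := -(b * (c * (b + d)))) ?_ (m3 hb (m2 hc (hb.add hd))).neg,
      hom_of_eq (g := c * ((c + d) * (a + a + c))) ?_
        (m3 hc (m2 (hc.add hd) ((ha.add ha).add hc)))⟩ <;>
    simp [tha, thb, thc] <;> first | ring1 | (left; ring1) | (left; left; ring1)
  · refine ⟨hom_of_eq (g := a * (b * (a - d))) ?_ (m3 ha (m2 hb (ha.sub hd))),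
      hom_of_eq (g := b * ((b + d) * (a + a + b))) ?_
        (m3 hb (m2 (hb.add hd) ((ha.add ha).add hb))),
      hom_of_eq (g := -(b * (c * (c + d)))) ?_ (m3 hb (m2 hc (hc.add hd))).neg⟩ <;>
    simp [tha, thb, thc] <;> first | ring1 | (left; ring1) | (left; left; ring1)
  · refine ⟨hom_of_eq (g := a * (a * (b + d) + (a + (c + c)) * (a + b))) ?_
        (m3 ha ((m2 ha (hb.add hd)).add (m2 (ha.add (hc.add hc)) (ha.add hb)))),
      hom_of_eq (g := a * (b * (b + d))) ?_ (m3 ha (m2 hb (hb.add hd))),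
      hom_of_eq (g := a * (c * (c + d))) ?_ (m3 ha (m2 hc (hc.add hd)))⟩ <;>
    simp [tha, thb, thc] <;> first | ring1 | (left; ring1) | (left; left; ring1)

/-- the linear relation between the four derivations -/
theorem rel (g : S) : ∑ j, (g * X j) * tx j = 0 ∧ ∑ j, (g * X j) * ty j = 0 ∧
    ∑ j, (g * X j) * tz j = 0 := by
  unfold tx ty tz
  simp only [Fin.sum_univ_four]
  generalize (X 0 : S) = a
  generalize (X 1 : S) = b
  generalize (X 2 : S) = c
  generalize (X 3 : S) = d
  refine ⟨?_, ?_, ?_⟩ <;> simp [tha, thb, thc] <;> ring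

/-- the vector of values of `∑ f_j θ_j` -/
noncomputable def comb (f : Fin 4 → S) : Fin 4 → S :=
  ![∑ j, f j * tx j, ∑ j, f j * ty j, ∑ j, f j * tz j, 0]

theorem comb_add (f g : Fin 4 → S) : comb (f + g) = comb f + comb g := by
  unfold comb
  simp only [Pi.add_apply, add_mul, Finset.sum_add_distrib]
  funext i
  fin_cases i <;> simp

theorem comb_smul (c : ℚ) (f : Fin 4 → S) : comb (c • f) = c • comb f := by
  unfold comb
  simp only [Pi.smul_apply, smul_mul_assoc, ← Finset.smul_sum]
  funext i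
  fin_cases i <;> simp

theorem sum_cv (f : Fin 4 → S) (α : Fin 4 → ℚ) : ∑ i, comb f i * cv α i =
    ∑ j, f j * (C (α 0) * tx j + C (α 1) * ty j + C (α 2) * tz j) := by
  rw [Fin.sum_univ_four]
  simp only [comb, cv, Matrix.cons_val, Finset.sum_mul, zero_mul, add_zero,
    ← Finset.sum_add_distrib]
  exact Finset.sum_congr rfl fun j _ => by ring

theorem oneForm_add (g h : Fin 4 → S) : oneForm (g + h) = oneForm g + oneForm h := by
  ext v
  simp only [oneForm_apply, AlternatingMap.add_apply, Pi.add_apply, add_mul,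
    Finset.sum_add_distrib]

theorem oneForm_smul (c : ℚ) (g : Fin 4 → S) : oneForm (c • g) = c • oneForm g := by
  ext v
  simp only [oneForm_apply, AlternatingMap.smul_apply, Pi.smul_apply, smul_mul_assoc,
    Finset.smul_sum]

theorem oneForm_single (g : Fin 4 → S) (w : Fin 1 → Fin 4) :
    oneForm g (fun j => Pi.single (w j) 1) = g (w 0) := by
  rw [oneForm_apply]
  simp [Pi.single_apply]

theorem comb_hom {k : ℕ} {f : Fin 4 → S} (hf : ∀ j, HomW (f j) k 3) (i : Fin 4) :
    (comb f i).IsHomogeneous k := by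
  have key : ∀ t : Fin 4 → S, (∀ j, (t j).IsHomogeneous 3) → (∑ j, f j * t j).IsHomogeneous k := by
    intro t ht
    refine IsHomogeneous.sum _ _ _ fun j _ => ?_
    have h := HomW.mul_left (k := k) (A := 0) (ht j) (by rw [zero_add]; exact hf j)
    rw [homW_zero_right] at h
    rw [mul_comm]
    exact h
  unfold comb
  fin_cases i
  · exact key _ fun j => (t_hom j).1
  · exact key _ fun j => (t_hom j).2.1
  · exact key _ fun j => (t_hom j).2.2
  · exact isHomogeneous_zero _ _ _

theorem one_mem {k : ℕ} {f : Fin 4 → S} (hf : ∀ j, HomW (f j) k 3) :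
    oneForm (comb f) ∈ HD Pool.Agent.W958.ST.LT aT 1 k := by
  refine ⟨⟨fun α hα v j hv => ?_, fun w => ?_⟩, fun v j hv => ?_⟩
  · have hj : j = 0 := Subsingleton.elim _ _
    subst hj
    rw [oneForm_apply, hv, sum_cv]
    rcases (mem_LT_iff α).1 hα with h | ⟨i, h⟩
    · rw [h]
      simp [aT]
    · rw [h]
      exact Finset.dvd_sum fun j _ => Dvd.dvd.mul_left (th_lin i j) _
  · rw [oneForm_single]
    exact comb_hom hf _
  · have hj : j = 0 := Subsingleton.elim _ _
    subst hj
    rw [oneForm_apply, hv, sum_cv]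
    simp [aT]

/-- the parametrisation of the derivations by the coefficients `f` -/
noncomputable def Th (k : ℕ) : (Fin 4 → HW ℚ (Fin 4) k 3) →ₗ[ℚ] HD Pool.Agent.W958.ST.LT aT 1 k where
  toFun f := ⟨oneForm (comb fun j => (f j : S)), one_mem fun j => (f j).2⟩
  map_add' f g := by
    apply Subtype.ext
    change oneForm (comb ((fun j => (f j : S)) + fun j => (g j : S))) = _
    rw [comb_add, oneForm_add]
    rfl
  map_smul' c f := by
    apply Subtype.ext
    change oneForm (comb (c • fun j => (f j : S))) = _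
    rw [comb_smul, oneForm_smul]
    rfl

/-- multiples of the relation -/
noncomputable def Xi (k : ℕ) : HW ℚ (Fin 4) k 4 →ₗ[ℚ] (Fin 4 → HW ℚ (Fin 4) k 3) where
  toFun g := fun j => ⟨(g : S) * X j, by
    rw [mul_comm]
    exact HomW.mul_left (hX j) g.2⟩
  map_add' f g := by
    funext j
    apply Subtype.ext
    change ((f : S) + (g : S)) * X j = (f : S) * X j + (g : S) * X j
    ring
  map_smul' c f := by
    funext j
    apply Subtype.ext
    change (c • (f : S)) * X j = c • ((f : S) * X j)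
    rw [smul_mul_assoc]

theorem Xi_inj (k : ℕ) : Function.Injective (Xi k) := by
  intro f g h
  apply Subtype.ext
  have h0 := congrArg (fun t : Fin 4 → HW ℚ (Fin 4) k 3 => (t 0 : S)) h
  exact mul_right_cancel₀ (X_ne_zero (R := ℚ) (0 : Fin 4)) h0

theorem oneForm_inj {g : Fin 4 → S} (h : oneForm g = 0) : g = 0 := by
  funext i
  have h1 := oneForm_single g (fun _ => i)
  rw [h] at h1
  exact h1.symm

theorem range_eq (h : StTS) (k : ℕ) : LinearMap.range (Xi k) = LinearMap.ker (Th k) := by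
  apply le_antisymm
  · rintro _ ⟨g, rfl⟩
    rw [LinearMap.mem_ker]
    apply Subtype.ext
    change oneForm (comb fun j => (g : S) * X j) = 0
    have e : (comb fun j => (g : S) * X j) = 0 := by
      obtain ⟨h1, h2, h3⟩ := rel (g : S)
      unfold comb
      simp only [h1, h2, h3]
      funext i
      fin_cases i <;> rfl
    rw [e]
    ext v
    simp [oneForm_apply]
  · intro f hf
    rw [LinearMap.mem_ker] at hf
    have h0 : oneForm (comb fun j => (f j : S)) = 0 := congrArg Subtype.val hf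
    have h1 := oneForm_inj h0
    obtain ⟨g, hg0, hg1, hg2, hg3⟩ := (h (Fin 4) id Function.injective_id (X 0) (X 1) (X 2) (X 3)
      rfl rfl rfl rfl).2 (fun j => (f j : S)) (congrFun h1 0) (congrFun h1 1) (congrFun h1 2)
    have hgw : HomW g k 4 := by
      refine homW_of_mul (f := X 0) (hX 0) (X_ne_zero _) ?_
      rw [mul_comm, ← hg0]
      exact (f 0).2
    refine ⟨⟨g, hgw⟩, ?_⟩
    funext j
    apply Subtype.ext
    change g * X j = (f j : S)
    fin_cases j
    · exact hg0.symm
    · exact hg1.symm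
    · exact hg2.symm
    · exact hg3.symm

theorem Th_surj (h : StTS) (k : ℕ) : Function.Surjective (Th k) := by
  rintro ⟨ω, ⟨hd, hh⟩, h0⟩
  set u : Fin 4 → S := fun i => ω (fun _ => Pi.single i 1) with hu
  have hω : ω = oneForm u := by
    apply ext_single
    intro w
    rw [oneForm_single, hu]
    simp only
    congr 1
    funext j
    rw [Subsingleton.elim j 0]
  have hdiv : ∀ i, lin (be i) ∣ C (be i 0) * u 0 + C (be i 1) * u 1 + C (be i 2) * u 2 +
      C (be i 3) * u 3 := by
    intro i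
    have h1 := hd (be i) ((mem_LT_iff _).2 (Or.inr ⟨i, rfl⟩)) (fun _ => cv (be i)) 0 rfl
    rw [hω, oneForm_apply, Fin.sum_univ_four] at h1
    simp only [cv] at h1
    convert h1 using 1
    ring
  have hu3 : u 3 = 0 := by
    have h1 := h0 (fun _ => cv aT) 0 rfl
    rw [hω, oneForm_apply, Fin.sum_univ_four] at h1
    simpa [cv, aT] using h1
  simp only [hu3, mul_zero, add_zero, lin4] at hdiv
  obtain ⟨f, hf0, hf1, hf2⟩ := (h (Fin 4) id Function.injective_id (X 0) (X 1) (X 2) (X 3)
      rfl rfl rfl rfl).1 (u 0) (u 1) (u 2)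
    (by simpa [be] using hdiv 0) (by simpa [be] using hdiv 1) (by simpa [be] using hdiv 3)
    (by simpa [be] using hdiv 2) (by simpa [be] using hdiv 4) (by simpa [be] using hdiv 5)
    (by simpa [be] using hdiv 6) (by simpa [be] using hdiv 7)
  have hhu : ∀ i, (u i).IsHomogeneous k := fun i => hh fun _ => i
  set f' : Fin 4 → S := fun j => if 3 ≤ k then homogeneousComponent (k - 3) (f j) else 0 with hf'
  have hw : ∀ j, HomW (f' j) k 3 := by
    intro j
    constructor
    · intro hk
      rw [hf']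
      simp only [if_pos hk]
      exact homogeneousComponent_isHomogeneous _ _
    · intro hk
      rw [hf']
      simp only
      rw [if_neg (by omega)]
  have key : ∀ t : Fin 4 → S, (∀ j, (t j).IsHomogeneous 3) → ∀ U : S, U.IsHomogeneous k →
      U = ∑ j, f j * t j → U = ∑ j, f' j * t j := by
    intro t ht U hU hUe
    rw [← homogeneousComponent_eq_self hU, hUe, map_sum]
    refine Finset.sum_congr rfl fun j _ => ?_
    rw [mul_comm, hcomp_mul (ht j), mul_comm]
  refine ⟨fun j => ⟨f' j, hw j⟩, ?_⟩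
  apply Subtype.ext
  change oneForm (comb f') = ω
  rw [hω]
  congr 1
  funext i
  fin_cases i
  · exact (key _ (fun j => (t_hom j).1) _ (hhu 0) hf0).symm
  · exact (key _ (fun j => (t_hom j).2.1) _ (hhu 1) hf1).symm
  · exact (key _ (fun j => (t_hom j).2.2) _ (hhu 2) hf2).symm
  · exact hu3.symm

theorem dim_one (h : StTS) (k : ℕ) :
    4 * Module.finrank ℚ (HW ℚ (Fin 4) k 3) = Module.finrank ℚ (HW ℚ (Fin 4) k 4) +
      Module.finrank ℚ (HD Pool.Agent.W958.ST.LT aT 1 k) := by
  have h1 := finrank_exact (A := HW ℚ (Fin 4) k 4) (B := Fin 4 → HW ℚ (Fin 4) k 3)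
    (C := HD Pool.Agent.W958.ST.LT aT 1 k) (Xi k) (Th k) (Xi_inj k) (Th_surj h k) (range_eq h k)
  rw [Module.finrank_pi_fintype] at h1
  simpa using h1

/-- p = 0 -/
theorem dim_zero (k : ℕ) : Module.finrank ℚ (HD Pool.Agent.W958.ST.LT aT 0 k) =
    Module.finrank ℚ (HW ℚ (Fin 4) k 0) := by
  let F : HD Pool.Agent.W958.ST.LT aT 0 k →ₗ[ℚ] HW ℚ (Fin 4) k 0 :=
    { toFun := fun ω => ⟨ω.1 (fun j => Pi.single (Fin.elim0 j : Fin 4) 1),
        homW_zero_right.2 (ω.2.1.2 (fun j => Fin.elim0 j))⟩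
      map_add' := fun _ _ => rfl
      map_smul' := fun _ _ => rfl }
  refine (LinearEquiv.ofBijective F ⟨?_, ?_⟩).finrank_eq
  · intro ω η hωη
    apply Subtype.ext
    refine AlternatingMap.ext fun v => ?_
    have h1 : ω.1 (fun j => Pi.single (Fin.elim0 j : Fin 4) 1) =
      η.1 (fun j => Pi.single (Fin.elim0 j : Fin 4) 1) := congrArg Subtype.val hωη
    rw [Subsingleton.elim v (fun j => Pi.single (Fin.elim0 j : Fin 4) 1)]
    exact h1
  · rintro ⟨g, hg⟩
    refine ⟨⟨AlternatingMap.constOfIsEmpty S (Fin 4 → S) (Fin 0) g, ⟨fun _ _ _ j => j.elim0,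
      fun w => homW_zero_right.1 hg⟩, fun _ j => j.elim0⟩, ?_⟩
    apply Subtype.ext
    rfl

end Pool.Agent.W460.STD
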