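import Pool.Agent.W460.STD2

/-!
ST-5, part 3: the case p = 3.
-/

set_option autoImplicit false

namespace Pool.Agent.W460.STD

open MvPolynomial Pool.Agent.W958.ST

/-- the first three coordinates -/
noncomputable def pi3 : (Fin 4 → S) →ₗ[S] (Fin 3 → S) := LinearMap.funLeft S S ![0, 1, 2]

/-- extension by zero -/
noncomputable def io3 : (Fin 3 → S) →ₗ[S] (Fin 4 → S) where
  toFun x := ![x 0, x 1, x 2, 0]
  map_add' x y := by funext i; fin_cases i <;> simp
  map_smul' c x := by funext i; fin_cases i <;> simp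

theorem pi3_single_last : pi3 (Pi.single 3 1) = 0 := by
  funext i
  simp only [pi3, LinearMap.funLeft_apply]
  fin_cases i <;> simp

theorem io3_pi3 (i : Fin 4) (hi : i ≠ 3) : io3 (pi3 (Pi.single i 1)) = Pi.single i 1 := by
  funext j
  simp only [io3, pi3, LinearMap.coe_mk, AddHom.coe_mk, LinearMap.funLeft_apply]
  fin_cases i <;> fin_cases j <;> first | exact absurd rfl hi | simp

theorem cv_aT : (cv aT : Fin 4 → S) = Pi.single 3 1 := by
  funext i
  fin_cases i <;> simp [cv, aT]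

theorem restrict {p : ℕ} (ω : Alt (Fin 4) ℚ (Fin 4) p)
    (h : ∀ (v : Fin p → (Fin 4 → S)) (j : Fin p), v j = cv aT → ω v = 0) :
    ω = (ω.compLinearMap io3).compLinearMap pi3 := by
  apply ext_single
  intro w
  rw [AlternatingMap.compLinearMap_apply, AlternatingMap.compLinearMap_apply]
  by_cases hw : ∃ j, w j = 3
  · obtain ⟨j, hj⟩ := hw
    rw [h _ j (by rw [hj, cv_aT])]
    symm
    apply AlternatingMap.map_coord_zero _ j
    rw [hj, pi3_single_last, map_zero]
  · push Not at hw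
    congr 1
    funext j
    rw [io3_pi3 _ (hw j)]

/-- the volume form -/
noncomputable def vol : Alt (Fin 4) ℚ (Fin 4) 3 :=
  (Matrix.detRowAlternating (n := Fin 3) (R := S)).compLinearMap pi3

theorem vol_apply (v : Fin 3 → (Fin 4 → S)) : vol v =
    Matrix.det (Matrix.of fun j i => v j (![0, 1, 2] i)) :=
  rfl

theorem eq_vol (ω : Alt (Fin 4) ℚ (Fin 4) 3)
    (h : ∀ (v : Fin 3 → (Fin 4 → S)) (j : Fin 3), v j = cv aT → ω v = 0) :
    ω = ω ![Pi.single 0 1, Pi.single 1 1, Pi.single 2 1] • vol := by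
  have h1 := restrict ω h
  have h2 := (ω.compLinearMap io3).eq_smul_basis_det (Pi.basisFun S (Fin 3))
  conv_lhs => rw [h1, h2]
  rw [Pi.basisFun_det]
  have h3 : (ω.compLinearMap io3) (Pi.basisFun S (Fin 3)) =
      ω ![Pi.single 0 1, Pi.single 1 1, Pi.single 2 1] := by
    rw [AlternatingMap.compLinearMap_apply]
    congr 1
    funext j
    rw [Pi.basisFun_apply]
    funext i
    simp only [io3, LinearMap.coe_mk, AddHom.coe_mk]
    fin_cases j <;> fin_cases i <;> simp
  rw [h3]
  ext v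
  rfl

theorem vol_hom (w : Fin 3 → Fin 4) : ∃ c : ℚ, vol (fun j => Pi.single (w j) 1) = C c := by
  refine ⟨Matrix.det (Matrix.of fun j i => (Pi.single (w j) 1 : Fin 4 → ℚ) (![0, 1, 2] i)), ?_⟩
  rw [vol_apply, RingHom.map_det]
  congr 1
  ext1 j i
  simp only [RingHom.mapMatrix_apply, Matrix.map_apply, Matrix.of_apply, Pi.single_apply]
  split_ifs <;> simp

theorem three_mem {k : ℕ} {f : S} (hf : HomW f k 8) :
    (Q * f) • vol ∈ HD Pool.Agent.W958.ST.LT aT 3 k := by
  have h0 : ∀ (v : Fin 3 → (Fin 4 → S)) (j : Fin 3), v j = cv aT → ((Q * f) • vol) v = 0 := by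
    intro v j hv
    rw [AlternatingMap.smul_apply, vol_apply, Matrix.det_eq_zero_of_row_eq_zero j, smul_zero]
    intro i
    rw [Matrix.of_apply, hv]
    fin_cases i <;> simp [cv, aT]
  refine ⟨⟨fun α hα v j hv => ?_, fun w => ?_⟩, h0⟩
  · rcases (mem_LT_iff α).1 hα with h | ⟨i, h⟩
    · rw [h0 v j (by rw [hv, h])]
      exact dvd_zero _
    · rw [AlternatingMap.smul_apply, smul_eq_mul, h]
      exact Dvd.dvd.mul_right (Dvd.dvd.mul_right (dvd_Q i) _) _
  · obtain ⟨c, hc⟩ := vol_hom w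
    rw [AlternatingMap.smul_apply, hc, smul_eq_mul, mul_comm]
    have h1 := HomW.mul_left (k := k) (A := 0) Q_hom (by rw [zero_add]; exact hf)
    rw [homW_zero_right] at h1
    simpa using (isHomogeneous_C (Fin 4) c).mul h1

theorem vol_std : vol ![Pi.single 0 1, Pi.single 1 1, Pi.single 2 1] = 1 := by
  rw [vol_apply, Matrix.det_fin_three]
  simp

theorem be_some (i : Fin 8) : ∃ t : Fin 3, be i (![0, 1, 2] t) = 1 := by
  fin_cases i
  · exact ⟨0, by simp [be]⟩
  · exact ⟨1, by simp [be]⟩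
  · exact ⟨2, by simp [be]⟩
  · exact ⟨1, by simp [be]⟩
  · exact ⟨2, by simp [be]⟩
  · exact ⟨0, by simp [be]⟩
  · exact ⟨0, by simp [be]⟩
  · exact ⟨0, by simp [be]⟩

theorem vol_update (i : Fin 8) : ∃ (v : Fin 3 → (Fin 4 → S)) (j : Fin 3), v j = cv (be i) ∧
    vol v = 1 := by
  obtain ⟨t, ht⟩ := be_some i
  refine ⟨Function.update ![Pi.single 0 1, Pi.single 1 1, Pi.single 2 1] t (cv (be i)), t,
    Function.update_self _ _ _, ?_⟩
  rw [vol_apply, Matrix.det_fin_three]
  fin_cases t <;> simp [Function.update, cv] at ht ⊢ <;> simp [ht]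

noncomputable def Ps (k : ℕ) : HW ℚ (Fin 4) k 8 →ₗ[ℚ] HD Pool.Agent.W958.ST.LT aT 3 k where
  toFun f := ⟨(Q * (f : S)) • vol, three_mem f.2⟩
  map_add' f g := by
    apply Subtype.ext
    change (Q * ((f : S) + (g : S))) • vol = (Q * (f : S)) • vol + (Q * (g : S)) • vol
    rw [mul_add, add_smul]
  map_smul' c f := by
    apply Subtype.ext
    change (Q * (c • (f : S))) • vol = c • ((Q * (f : S)) • vol)
    refine AlternatingMap.ext fun v => ?_
    rw [AlternatingMap.smul_apply, AlternatingMap.smul_apply, AlternatingMap.smul_apply,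
      mul_smul_comm, smul_assoc]

theorem dim_three (k : ℕ) : Module.finrank ℚ (HD Pool.Agent.W958.ST.LT aT 3 k) =
    Module.finrank ℚ (HW ℚ (Fin 4) k 8) := by
  symm
  refine (LinearEquiv.ofBijective (Ps k) ⟨?_, ?_⟩).finrank_eq
  · intro f g h
    apply Subtype.ext
    have h1 : (Q * (f : S)) • vol = (Q * (g : S)) • vol := congrArg Subtype.val h
    have h2 := congrArg (fun ω : Alt (Fin 4) ℚ (Fin 4) 3 =>
      ω ![Pi.single 0 1, Pi.single 1 1, Pi.single 2 1]) h1
    simp only [AlternatingMap.smul_apply, vol_std, smul_eq_mul, mul_one] at h2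
    exact mul_left_cancel₀ Q_ne h2
  · rintro ⟨ω, ⟨hd, hh⟩, h0⟩
    have h1 := eq_vol ω h0
    set W := ω ![Pi.single 0 1, Pi.single 1 1, Pi.single 2 1] with hW
    have h2 : Q ∣ W := by
      apply Q_dvd
      intro i
      obtain ⟨v, j, hv, hvol⟩ := vol_update i
      have h3 := hd (be i) ((mem_LT_iff _).2 (Or.inr ⟨i, rfl⟩)) v j hv
      rw [h1, AlternatingMap.smul_apply, hvol, smul_eq_mul, mul_one] at h3
      exact h3
    obtain ⟨f, hf⟩ := h2
    have hWh : W.IsHomogeneous k := by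
      have h3 := hh ![0, 1, 2]
      have e : (fun j : Fin 3 => (Pi.single ((![0, 1, 2] : Fin 3 → Fin 4) j) 1 : Fin 4 → S)) =
          ![Pi.single 0 1, Pi.single 1 1, Pi.single 2 1] := by
        funext j
        fin_cases j <;> rfl
      rw [e] at h3
      exact h3
    have hfw : HomW f k 8 := by
      have := homW_of_mul (A := 0) Q_hom Q_ne (by rw [← hf]; exact homW_zero_right.2 hWh)
      rwa [zero_add] at this
    refine ⟨⟨f, hfw⟩, ?_⟩
    apply Subtype.ext
    change (Q * f) • vol = ω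
    rw [← hf, ← h1]

end Pool.Agent.W460.STD
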